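import Pool.Agent.H10.ABY.Stmts

/-!
# ABY, module ONR: the free prime takes few values, all heights `≥ c (log X) ^ 2`
-/

set_option autoImplicit false

namespace Pool.ABY

open Finset Pool.Agent.H98.ABCR Pool.SHA

private theorem onr_cover {α β : Type*} (F : Finset α) (S : Finset β)
    (P : β → α → Prop) (N : ℝ) (h : ∀ v ∈ F, ∃ c ∈ S, P c v)
    (hN : ∀ c ∈ S, ∀ G : Finset α, G ⊆ F → (∀ v ∈ G, P c v) → (G.card : ℝ) ≤ N) :
    (F.card : ℝ) ≤ S.card * N := by
  classical
  have h1 : F ⊆ S.biUnion fun c => F.filter (P c) := by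
    intro v hv
    obtain ⟨c, hc, hp⟩ := h v hv
    exact mem_biUnion.2 ⟨c, hc, mem_filter.2 ⟨hv, hp⟩⟩
  have h2 : (F.card : ℝ) ≤ ∑ c ∈ S, ((F.filter (P c)).card : ℝ) := by
    exact_mod_cast (card_le_card h1).trans card_biUnion_le
  refine h2.trans ?_
  rw [← nsmul_eq_mul]
  exact sum_le_card_nsmul _ _ _ fun c hc =>
    hN c hc _ (filter_subset _ _) fun v hv => (mem_filter.1 hv).2

private theorem onr_card_fact (S : Finset ℕ) (hS : ∀ q ∈ S, 1 ≤ q) :
    S.card.factorial ≤ ∏ q ∈ S, q := by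
  induction S using Finset.induction_on_max with
  | empty => simp
  | insert a s hs ih =>
    have ha : a ∉ s := fun h => lt_irrefl _ (hs a h)
    rw [Finset.card_insert_of_notMem ha, Finset.prod_insert ha, Nat.factorial_succ]
    refine Nat.mul_le_mul ?_ (ih fun q hq => hS q (mem_insert_of_mem hq))
    have h1 : s ⊆ Icc 1 (a - 1) := by
      intro x hx
      have h2 := hs x hx
      have h3 := hS x (mem_insert_of_mem hx)
      rw [mem_Icc]
      omega
    have h4 := card_le_card h1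
    rw [Nat.card_Icc] at h4
    have h5 := hS a (mem_insert_self _ _)
    omega

private theorem onr_log_half {x : ℝ} (hx : 0 < x) : Real.log x ≤ x / 2 := by
  have h1 : 0 < Real.sqrt x := Real.sqrt_pos.2 hx
  have h2 := Real.log_le_sub_one_of_pos h1
  have h3 : Real.log x = 2 * Real.log (Real.sqrt x) := by
    rw [Real.log_sqrt hx.le]
    ring
  have h4 : Real.sqrt x * Real.sqrt x = x := Real.mul_self_sqrt hx.le
  nlinarith [sq_nonneg (Real.sqrt x - 2)]

private theorem onr_fact_log {w : ℕ} {X : ℝ} (h : (w.factorial : ℝ) ≤ X) :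
    (w : ℝ) * (Real.log w - 1) ≤ Real.log X := by
  rcases Nat.eq_zero_or_pos w with rfl | hw
  · simp only [Nat.factorial_zero, Nat.cast_one] at h
    simpa using Real.log_nonneg h
  · have hw' : (0 : ℝ) < w := by exact_mod_cast hw
    have h1 := Real.pow_div_factorial_le_exp (w : ℝ) hw'.le w
    have hf : (0 : ℝ) < w.factorial := by exact_mod_cast w.factorial_pos
    have h2 : ((w : ℝ) ^ w) ≤ Real.exp w * X := by
      rw [div_le_iff₀ hf] at h1
      exact h1.trans (mul_le_mul_of_nonneg_left h (Real.exp_pos _).le)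
    have hX : 0 < X := lt_of_lt_of_le hf h
    have h3 := Real.log_le_log (by positivity) h2
    rw [Real.log_pow, Real.log_mul (Real.exp_pos _).ne' hX.ne', Real.log_exp] at h3
    linarith

private theorem onr_w_le {w : ℕ} {X : ℝ} (h : (w.factorial : ℝ) ≤ X) {L : ℝ}
    (hL : L = Real.log (Real.log X)) (hL4 : 4 ≤ L) (hl : 0 < Real.log X) :
    (w : ℝ) ≤ 4 * Real.log X / L := by
  by_contra hcon
  push Not at hcon
  set l := Real.log X with hl_def
  have h1 := onr_fact_log h
  rw [← hl_def] at h1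
  have hL0 : 0 < L := by linarith
  have hw0 : (0 : ℝ) < w := lt_trans (by positivity) hcon
  have h2 : L / 2 ≤ Real.log w := by
    have h3 : Real.log (4 * l / L) ≤ Real.log w := Real.log_le_log (by positivity) hcon.le
    rw [Real.log_div (by positivity) hL0.ne', Real.log_mul (by norm_num) hl.ne', ← hL] at h3
    have h4 := onr_log_half hL0
    have h5 : 0 ≤ Real.log 4 := Real.log_nonneg (by norm_num)
    linarith
  have h6 : L / 4 ≤ Real.log w - 1 := by linarith
  have h7 : (w : ℝ) * (L / 4) ≤ l := (mul_le_mul_of_nonneg_left h6 hw0.le).trans h1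
  rw [div_lt_iff₀ hL0] at hcon
  nlinarith

private theorem onr_ana {c δ A : ℝ} (hc : 0 < c) (hδ : 0 < δ) (hA : 0 < A) {l L h0 w : ℝ}
    (hL : L = Real.log l) (hl : 0 < l) (hL1 : 1 ≤ L) (hLT : A * (16 + 104 / c) / δ ≤ L)
    (hw0 : 0 < w) (hw : w ≤ 4 * l / L) (hh0 : c * l ^ 2 / 2 ≤ h0) :
    A * (l + w * Real.log (h0 * l)) ≤ δ * h0 / w := by
  have hL0 : 0 < L := by linarith
  have hh0' : 0 < h0 := lt_of_lt_of_le (by positivity) hh0
  rw [le_div_iff₀ hw0]
  have h1 : Real.log (h0 * l) ≤ h0 / l ^ 2 + 3 * L := by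
    have e : h0 * l = (h0 / l ^ 2) * l ^ 3 := by
      field_simp
    rw [e, Real.log_mul (by positivity) (by positivity), Real.log_pow, ← hL]
    have h2 := Real.log_le_sub_one_of_pos (show 0 < h0 / l ^ 2 by positivity)
    push_cast
    linarith
  have h2 : w * w * Real.log (h0 * l) ≤ (4 * l / L) * (4 * l / L) * (h0 / l ^ 2 + 3 * L) := by
    have hnn : 0 ≤ h0 / l ^ 2 + 3 * L := by positivity
    calc w * w * Real.log (h0 * l) ≤ w * w * (h0 / l ^ 2 + 3 * L) :=
          mul_le_mul_of_nonneg_left h1 (by positivity)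
      _ ≤ (4 * l / L) * (4 * l / L) * (h0 / l ^ 2 + 3 * L) :=
          mul_le_mul_of_nonneg_right (mul_le_mul hw hw hw0.le (by positivity)) hnn
  have h3 : (4 * l / L) * (4 * l / L) * (h0 / l ^ 2 + 3 * L) = 16 * h0 / L ^ 2 + 48 * l ^ 2 / L := by
    field_simp
    ring
  have h4 : w * l ≤ 4 * l ^ 2 / L := by
    calc w * l ≤ 4 * l / L * l := mul_le_mul_of_nonneg_right hw hl.le
      _ = 4 * l ^ 2 / L := by ring
  have h5 : l ^ 2 ≤ 2 * h0 / c := by
    rw [le_div_iff₀ hc]
    linarith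
  have h6 : 16 * h0 / L ^ 2 ≤ 16 * h0 / L := by
    apply div_le_div_of_nonneg_left (by positivity) hL0
    nlinarith
  have h7 : 52 * l ^ 2 / L ≤ (104 / c) * h0 / L := by
    apply div_le_div_of_nonneg_right _ hL0.le
    have : 52 * l ^ 2 ≤ 52 * (2 * h0 / c) := by linarith
    refine this.trans (le_of_eq ?_)
    ring
  have h8 : w * l + w * w * Real.log (h0 * l) ≤ (16 + 104 / c) * h0 / L := by
    have e1 : 52 * l ^ 2 / L = 4 * l ^ 2 / L + 48 * l ^ 2 / L := by ring
    have e2 : (16 + 104 / c) * h0 / L = 16 * h0 / L + (104 / c) * h0 / L := by ring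
    rw [e2]
    linarith
  have h9 : A * (16 + 104 / c) ≤ δ * L := by
    rw [div_le_iff₀ hδ] at hLT
    linarith
  calc A * (l + w * Real.log (h0 * l)) * w
      = A * (w * l + w * w * Real.log (h0 * l)) := by ring
    _ ≤ A * ((16 + 104 / c) * h0 / L) := mul_le_mul_of_nonneg_left h8 hA.le
    _ = (A * (16 + 104 / c)) * (h0 / L) := by ring
    _ ≤ (δ * L) * (h0 / L) := mul_le_mul_of_nonneg_right h9 (by positivity)
    _ = δ * h0 := by field_simp

private theorem onr_nn_coord (v : ℕ × ℕ) (s : Fin 3) : coord v s ∣ nn v := by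
  unfold nn
  fin_cases s
  · exact Dvd.intro _ (mul_assoc _ _ _).symm
  · exact Dvd.dvd.mul_right (Dvd.intro_left _ rfl) _
  · exact Dvd.intro_left _ rfl

private theorem onr_coord_pos {v : ℕ × ℕ} (hv : IsTri v) (s : Fin 3) : 0 < coord v s := by
  obtain ⟨ha, hb, -⟩ := hv
  fin_cases s
  · exact ha
  · exact hb
  · exact Nat.add_pos_left ha _

private theorem onr_nn_pos {v : ℕ × ℕ} (hv : IsTri v) : 0 < nn v := by
  obtain ⟨ha, hb, -⟩ := hv
  unfold nn
  positivity

private theorem onr_coprime {v : ℕ × ℕ} (hv : IsTri v) {s t : Fin 3} (h : s ≠ t) :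
    (coord v s).Coprime (coord v t) := by
  obtain ⟨-, -, hc⟩ := hv
  have h01 : v.1.Coprime v.2 := hc
  have h02 : v.1.Coprime (v.1 + v.2) := by simpa using hc
  have h12 : v.2.Coprime (v.1 + v.2) := by simpa using hc.symm
  fin_cases s <;> fin_cases t
  · exact absurd rfl h
  · exact h01
  · exact h02
  · exact h01.symm
  · exact absurd rfl h
  · exact h12
  · exact h02.symm
  · exact h12.symm
  · exact absurd rfl h

private theorem onr_exp_le {n : ℕ} {x : ℕ} {H : ℝ} (hx : 0 < x) (hlog : Real.log x ≤ H) {q : ℕ}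
    (hq : q.Prime) (hn : n ≤ x.factorization q) : n ≤ ⌊2 * H⌋₊ := by
  have h1 : (2 : ℝ) ^ n ≤ x := by
    have h2 : q ^ x.factorization q ≤ x := Nat.ordProj_le q hx.ne'
    have h3 : 2 ^ n ≤ q ^ x.factorization q :=
      (Nat.pow_le_pow_right (by norm_num) hn).trans (Nat.pow_le_pow_left hq.two_le _)
    exact_mod_cast h3.trans h2
  have h4 := Real.log_le_log (by positivity) h1
  rw [Real.log_pow] at h4
  have h5 : (1 / 2 : ℝ) ≤ Real.log 2 := by
    have := Real.log_two_gt_d9
    linarith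
  refine Nat.le_floor ?_
  nlinarith [Nat.cast_nonneg (α := ℝ) n]

/-- the exponents of the free prime -/
private def ee (s : Fin 3) (z : ℕ) : Fin 3 → Fin 1 → ℕ := fun s' _ => if s' = s then z else 0

private theorem onr_free {v : ℕ × ℕ} (hv : IsTri v) {K : Finset ℕ} {i : Fin 3} {r : ℕ}
    (hr : r.Prime) (hrK : r ∉ K) (hF : Free1 K i r v) :
    ∃ s : Fin 3, s ≠ i ∧ 1 ≤ (coord v s).factorization r ∧
      ∀ s', s' ≠ i → ∃ u : ℕ, u.primeFactors ⊆ K ∧
        coord v s' = u * ∏ j : Fin 1, (fun _ : Fin 1 => r) j ^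
          ee s ((coord v s).factorization r) s' j := by
  obtain ⟨⟨s, hs, hdvd⟩, hall⟩ := hF
  have hdiv : ∀ s', s' ≠ s → ¬ r ∣ coord v s' := by
    intro s' hs' hd
    have := Nat.Coprime.eq_one_of_dvd ((onr_coprime hv hs').coprime_dvd_left hd) hdvd
    exact hr.one_lt.ne' this
  refine ⟨s, hs, hr.factorization_pos_of_dvd (onr_coord_pos hv s).ne' hdvd, ?_⟩
  intro s' hs'
  by_cases hss : s' = s
  · subst hss
    have hne := (onr_coord_pos hv s').ne'
    refine ⟨ordCompl[r] (coord v s'), ?_, ?_⟩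
    · intro p hp
      have hp' := Nat.mem_primeFactors.1 hp
      have hpd : p ∣ coord v s' := hp'.2.1.trans (Nat.ordCompl_dvd _ _)
      rcases hall s' hs' p (Nat.mem_primeFactors.2 ⟨hp'.1, hpd, hne⟩) with h | h
      · exact h
      · exfalso
        subst h
        exact Nat.not_dvd_ordCompl hr hne hp'.2.1
    · simp only [ee, if_true, univ_unique, prod_singleton]
      rw [mul_comm]
      exact (Nat.ordProj_mul_ordCompl_eq_self _ _).symm
  · refine ⟨coord v s', ?_, ?_⟩
    · intro p hp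
      rcases hall s' hs' p hp with h | h
      · exact h
      · exfalso
        subst h
        exact hdiv s' hss (Nat.mem_primeFactors.1 hp).2.1
    · simp [ee, hss]

private theorem onr_elab {s i : Fin 3} {z : ℕ} (hs : s ≠ i) (hz : 1 ≤ z) : ELab i (ee s z) := by
  intro j
  refine ⟨s, hs, ?_, ?_⟩
  · simpa [ee] using hz
  · intro s' _ h
    simp [ee, h]

theorem onr_thm (hS : S_STAR) (hTL : S_TL) : S_ONR := by
  classical
  intro δ ε c hδ hε hc
  obtain ⟨B, X1, hB, hX1, hstar⟩ := hS δ ε hδ hε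
  obtain ⟨A, X2, hA, hX2, hT⟩ := hTL 1 (ε / 2) (by positivity)
  have hev := (isLittleO_log_rpow_rpow_atTop (B + 2) (show 0 < ε / 2 by positivity)).bound
    (show (0 : ℝ) < 1 by norm_num)
  have hev2 := (isLittleO_log_rpow_rpow_atTop B (show (0 : ℝ) < 1 by norm_num)).bound
    (show (0 : ℝ) < 1 by norm_num)
  obtain ⟨X3, hX3⟩ := Filter.eventually_atTop.1 (hev.and hev2)
  set T : ℝ := 16 + A * (16 + 104 / c) / δ + 1 / c with hTdef
  have hA0 : 0 < A := by linarith
  have t1 : 0 ≤ A * (16 + 104 / c) / δ := by positivity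
  have t2 : 0 ≤ 1 / c := by positivity
  refine ⟨Real.exp (Real.exp T) + X1 + X2 + |X3|, by
    have := Real.exp_pos (Real.exp T)
    have := abs_nonneg X3
    linarith, ?_⟩
  intro X h0 K i Q hX hh0 hQ
  have hab := abs_nonneg X3
  have hab' := le_abs_self X3
  have hee := Real.exp_pos (Real.exp T)
  rcases le_or_gt (Real.log X ^ B) h0 with hbig | hsm
  · exact hstar X h0 K i Q (by linarith) hbig hQ
  have hXe : Real.exp (Real.exp T) ≤ X := by linarith
  have hX0 : 0 < X := lt_of_lt_of_le (Real.exp_pos _) hXe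
  obtain ⟨hy1, hy2⟩ := hX3 X (by linarith)
  rcases Q.eq_empty_or_nonempty with rfl | ⟨r0, hr0⟩
  · simp only [card_empty, Nat.cast_zero]
    positivity
  set l := Real.log X with hl
  have hlT : Real.exp T ≤ l := by
    rw [hl, Real.le_log_iff_exp_le hX0]
    exact hXe
  have hl0 : 0 < l := lt_of_lt_of_le (Real.exp_pos _) hlT
  have hTl : T ≤ l := by linarith [Real.add_one_le_exp T]
  have hl16 : 16 ≤ l := by linarith
  set L := Real.log l with hL
  have hLT : T ≤ L := by
    rw [hL, Real.le_log_iff_exp_le hl0]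
    exact hlT
  have hL4 : 4 ≤ L := by linarith
  have hL0 : 0 < L := by linarith
  rw [one_mul, Real.norm_of_nonneg (by positivity), Real.norm_of_nonneg (by positivity)] at hy1 hy2
  rw [Real.rpow_one] at hy2
  -- the height
  have hh01 : 1 ≤ h0 := by
    have h1 : 1 / c ≤ l := by linarith
    rw [div_le_iff₀ hc] at h1
    have h2 : l * c ≤ c * l ^ 2 := by nlinarith [mul_pos hc hl0]
    linarith
  have hh0X : h0 ≤ X := by linarith
  -- the known primes
  have hK : ∀ r ∈ Q, (∀ p ∈ insert r K, p.Prime ∧ (p : ℝ) ≤ X) ∧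
      (((K.card + 1).factorial : ℕ) : ℝ) ≤ X := by
    intro r hr
    obtain ⟨hrp, hrK, v, hv, hRR, -, -, hKv, -, ⟨s, hs, hdvd⟩, -⟩ := hQ r hr
    have hsub : insert r K ⊆ (nn v).primeFactors := by
      intro p hp
      rcases mem_insert.1 hp with rfl | hp
      · exact Nat.mem_primeFactors.2 ⟨hrp, hdvd.trans (onr_nn_coord v s), (onr_nn_pos hv).ne'⟩
      · exact hKv hp
    have h1 : ∀ S ⊆ (nn v).primeFactors, ((∏ q ∈ S, q : ℕ) : ℝ) ≤ X := by
      intro S hS
      have h2 : ∏ q ∈ S, q ≤ RR v := by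
        unfold RR rad
        exact Finset.prod_le_prod_of_subset_of_one_le' hS fun q hq _ =>
          (Nat.mem_primeFactors.1 hq).1.one_lt.le
      exact le_trans (by exact_mod_cast h2) hRR
    refine ⟨fun p hp => ⟨(Nat.mem_primeFactors.1 (hsub hp)).1, ?_⟩, ?_⟩
    · have := h1 {p} (singleton_subset_iff.2 (hsub hp))
      simpa using this
    · have h3 := onr_card_fact (insert r K) fun q hq =>
        (Nat.mem_primeFactors.1 (hsub hq)).1.one_lt.le
      rw [card_insert_of_notMem hrK] at h3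
      exact le_trans (by exact_mod_cast h3) (h1 _ hsub)
  have hKp : ∀ q ∈ K, q.Prime := fun q hq => ((hK r0 hr0).1 q (mem_insert_of_mem hq)).1
  have hKX : ∀ q ∈ K, (q : ℝ) ≤ X := fun q hq => ((hK r0 hr0).1 q (mem_insert_of_mem hq)).2
  have hw : ((K.card + 1 : ℕ) : ℝ) ≤ 4 * l / L :=
    onr_w_le (hK r0 hr0).2 (by rw [hL, hl]) hL4 hl0
  have hwl : ((K.card + 1 : ℕ) : ℝ) ≤ l := by
    refine hw.trans ?_
    rw [div_le_iff₀ hL0]
    nlinarith
  have hK1 : 1 ≤ K.card := by
    obtain ⟨-, -, v, hv, -, h1, -, -, h2, -⟩ := hQ r0 hr0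
    rw [Nat.one_le_iff_ne_zero, Ne, card_eq_zero]
    rintro rfl
    have h3 : kl ∅ (coord v i) = 0 := by simp [kl]
    rw [h3] at h2
    nlinarith [mul_pos hδ (lt_of_lt_of_le one_pos hh01)]
  have hK1' : (1 : ℝ) ≤ K.card := by exact_mod_cast hK1
  set Λ : ℝ := δ * h0 / K.card with hΛ
  have hana : A * (l + ((K.card + 1 : ℕ) : ℝ) * Real.log (h0 * l)) ≤ Λ := by
    have h7 := onr_ana (c := c) (δ := δ) (A := A) hc hδ hA0 (l := l) (L := L) (h0 := h0)
      (w := ((K.card + 1 : ℕ) : ℝ)) hL hl0 (by linarith) (by linarith) (by positivity) hw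
      (by nlinarith [mul_pos hc (pow_pos hl0 2)])
    refine h7.trans ?_
    rw [hΛ]
    refine div_le_div_of_nonneg_left (by positivity) (by linarith) ?_
    push_cast
    linarith
  -- the classes
  have hmain := onr_cover Q (K ×ˢ (univ : Finset (Fin 3)) ×ˢ range (⌊2 * (2 * h0)⌋₊ + 1))
    (fun x r => x.2.1 ≠ i ∧ 1 ≤ x.2.2 ∧
      Real1 X h0 Λ K i x.1 (ee x.2.1 x.2.2) (fun _ : Fin 1 => r)) (X ^ (ε / 2))
    (by
      intro r hr
      obtain ⟨hrp, hrK, v, hv, hRR, hv1, hv2, hKv, hkl, hF⟩ := hQ r hr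
      obtain ⟨s, hs, hz, hu⟩ := onr_free hv hrp hrK hF
      obtain ⟨p, hp, hp'⟩ := Finset.exists_le_of_sum_le (s := K)
        (f := fun _ => δ * h0 / K.card)
        (g := fun q => ((coord v i).factorization q : ℝ) * Real.log q)
        (card_pos.1 (by omega))
        (by
          rw [Finset.sum_const, nsmul_eq_mul, mul_div_cancel₀ _ (by positivity)]
          exact hkl)
      have hlog : Real.log (coord v s) ≤ 2 * h0 := by
        refine le_trans ?_ hv2
        unfold hh
        refine Real.log_le_log (by exact_mod_cast onr_coord_pos hv s) ?_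
        have : coord v s ≤ v.1 + v.2 := by
          fin_cases s
          · exact Nat.le_add_right _ _
          · exact Nat.le_add_left _ _
          · exact le_rfl
        exact_mod_cast this
      refine ⟨(p, s, (coord v s).factorization r), ?_, hs, hz, ?_⟩
      · rw [mem_product, mem_product, mem_range]
        exact ⟨hp, mem_univ _, Nat.lt_succ_of_le (onr_exp_le (onr_coord_pos hv s) hlog hrp le_rfl)⟩
      · refine ⟨Function.injective_of_subsingleton _,
          fun _ => ⟨hrp, ((hK r hr).1 r (mem_insert_self _ _)).2, hrK⟩, v, hv, hv1, hv2, hp', hu⟩)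
    (by
      rintro ⟨p, s, z⟩ hx G hGQ hG
      rcases G.eq_empty_or_nonempty with rfl | ⟨r1, hr1⟩
      · simp only [card_empty, Nat.cast_zero]
        positivity
      obtain ⟨hs, hz, -⟩ := hG r1 hr1
      rw [mem_product] at hx
      have hinj : Function.Injective (fun (r : ℕ) (_ : Fin 1) => r) := fun a b h =>
        congrFun h 0
      have h1 := hT X h0 Λ (K.card + 1) K i p (ee s z) (G.image fun (r : ℕ) (_ : Fin 1) => r)
        (by linarith) hh01 hh0X hwl le_rfl hKp hx.1 (hKX p hx.1) (onr_elab hs hz) hana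
        (by
          intro q hq
          obtain ⟨r, hr, rfl⟩ := mem_image.1 hq
          exact (hG r hr).2.2)
      rwa [card_image_of_injective _ hinj] at h1)
  refine hmain.trans ?_
  rw [card_product, card_product, card_univ, Fintype.card_fin, card_range]
  have hcard : ((K.card * (3 * (⌊2 * (2 * h0)⌋₊ + 1)) : ℕ) : ℝ) ≤ X ^ (ε / 2) := by
    push_cast
    have h1 : (⌊2 * (2 * h0)⌋₊ : ℝ) ≤ 2 * (2 * h0) := Nat.floor_le (by linarith)
    have h2 : (K.card : ℝ) ≤ l := by
      push_cast at hwl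
      linarith
    have h3 : (⌊2 * (2 * h0)⌋₊ : ℝ) + 1 ≤ 5 * l ^ B := by linarith
    calc (K.card : ℝ) * (3 * ((⌊2 * (2 * h0)⌋₊ : ℝ) + 1)) ≤ l * (3 * (5 * l ^ B)) := by
          refine mul_le_mul h2 (by linarith) (by positivity) hl0.le
      _ = 15 * l * l ^ B := by ring
      _ ≤ l ^ 2 * l ^ B := by
          refine mul_le_mul_of_nonneg_right ?_ (by positivity)
          nlinarith
      _ = l ^ (B + 2) := by
          rw [Real.rpow_add hl0, mul_comm]
          congr 1
          exact_mod_cast (Real.rpow_natCast l 2).symm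
      _ ≤ X ^ (ε / 2) := hy1
  calc ((K.card * (3 * (⌊2 * (2 * h0)⌋₊ + 1)) : ℕ) : ℝ) * X ^ (ε / 2)
      ≤ X ^ (ε / 2) * X ^ (ε / 2) := mul_le_mul_of_nonneg_right hcard (by positivity)
    _ = X ^ ε := by
        rw [← Real.rpow_add hX0]
        congr 1
        ring

end Pool.ABY
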